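import Pool.Agent.W_4481e3_q87.GoR
import Pool.Agent.W_4481e3_tab.T2

/-!
Tree s13o2, data 3.
-/

namespace Pool.Agent.W_4481e3_rt.s13o2

open Pool.Agent.W_4481e3_q25.EvR

theorem k63 : ckO Pool.Agent.W_4481e3_tab.T2.tab 10848 12432 268435456 65536 92733 131072 23 1572864 524288 3670016 524288 515354132 522526392 7172260 14344520 268435456 268435456 16777216 16777216 132383 132383 0x100001c00001c01001c01001c03000c212100001c00001c01001c2100001c00001c01001c1201ed00001c32100001c1001ed0c004d2121201001c0300ec10300ac99282c6e7a51c7992120300ac990300ec12199199299212992999121999931942992390701dc1949390701dc20701dc0701dc21949943212183e8c7a15d721203000c0300ec203000c04007c2103001c05007c05007c120300ec05007c2105007c05007c05007c1205042c10701dc0601dc10701dc0701dc20701dc1299992124990701dc1294305007c05007c107007c0701dc0701dc0701dc13205007c08042c07007c184ed67ad9b72121284b627ab40705007c05007c105007c05007c07007c205007c1205007c05007c21284e977b43171204007c05007c204007c05007c2105007c05007c05007c205007c05007c21284deb7bad1705007c05007c05007c205007c05007c212121843887b6d472199912999210c039d2190e039d10b00fd20c039d0f00fd21290c039d2999210d039d210c039d2991604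2d12940803ac0803ac299249929439419919430e039d0d039d12039d10c039d2120701dc0701dc1940701dc0701dc0701dc120701dc0701dc219428530f7a94c70701dc0701dc0701dc20701dc1284f3c7ad8070a002f04002f384f3c7ad807419928530f7a94c7990701dc1284f3c7ad807103001c4314039d0d039d20d029f0d029f20c029f0c029f2110039d210d039d20d029f0c029f111039d14039d120b029f0a029f10f029f0f029f12112039d10039d15039d111039d21212853aa7b043718616b7a76970d039d11039d0f039d50a007d212110007d0a007d09007d21210e00fd04002f208002f120701dc0701dc20701dc0701dc210a002f04002f3490701dc20601dc0701dc219430901dc0901dc110039d14039d1204002f40701dc0701dc10901dc0901dc20901dc0901dc21204002f410a002f05002f104002f405002f304002f4320601dc0701dc20601dc0701dc210901dc0901dc0901dc120901dc0901dc0901dc128511d7a69d7120a002f40601dc0701dc20601dc0701dc2104002f40a002f04002f304002f484e327a635723113038d11038d104002f40a002f04002f430f007d214038d10038d12038d10c038d2104002f405002f04002f4311042d21205007c0701dc205007c07007c210901dc0901dc0901dc12855b07a93870901dc0901dc08039c12857d37adc17128532a7adc4707007c05007c108039c08039c207007c08039c21858297b1c57210a002f406002f05002f104002f405002f304002f43a05002f304002f40a002f109002f304002f405002f04002f4321854d77a65e70c007d10007d109002f205002f04002f404002f31207007c07007c105002f04002f3207007c05002f2104002f405002f04002f430a002f04002f405002f320a002f04002f405002f304002f405002f04002f43109002f04002f10a002f32109002f04002f20a002f08002f21212831fa7930a712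 = true := by decide +kernel

theorem k65 : ckO Pool.Agent.W_4481e3_tab.T2.tab 10848 12432 268435456 65536 92733 131072 3 1572864 524288 3670016 524288 522526392 493837352 14344520 14344520 268435456 268435456 16777216 16777216 132383 132383 0x100001c00001c01001c21 = true := by decide +kernel

theorem k67 : ckO Pool.Agent.W_4481e3_tab.T2.tab 10848 12432 268435456 65536 92733 131072 2 1572864 524288 3670016 524288 493837352 508181872 14344520 28689040 268435456 268435456 16777216 16777216 132383 132383 0x100000c00001c2 = true := by decide +kernel

end Pool.Agent.W_4481e3_rt.s13o2
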